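import Mathlib

/-!
Choice of the parameter, with a rate (adapted from Helper48/ST/Asym.lean).
-/

set_option autoImplicit false

open Polynomial
open scoped Classical

namespace Pool.Agent.Helper62.SR

open Filter Topology in
theorem asym (m κ : ℕ) (hκ : 1 ≤ κ) (q : ℝ) (hq : 2 ≤ q) (c : ℝ) (hc : 0 < c) :
    ∃ θ : ℝ, 0 < θ ∧ ∀ A B C E : ℝ, 0 ≤ A → 0 ≤ B → 0 ≤ C → 0 ≤ E → ∀ δ : ℝ, 0 < δ →
    ∃ N₀ : ℕ, ∀ N : ℕ, N₀ ≤ N → 1 ≤ N ∧ ∃ T : ℕ, 1 ≤ T ∧ 2 * m * T ≤ N ∧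
      A * ((T : ℝ) ^ m * (N : ℝ) ^ (-(1 / (κ : ℝ)))) +
        B * (((N : ℝ) + 1) ^ m * (((N : ℝ) + 1) * (q⁻¹) ^ T) ^ (1 / 4 : ℝ)) +
        C * ((T : ℝ) ^ m * (E * (T : ℝ) ^ 2 / N) ^ (c / 2)) ≤ δ * (N : ℝ) ^ (-θ) := by
  have hκ0 : (0 : ℝ) < κ := by exact_mod_cast hκ
  obtain ⟨k, hk⟩ := exists_nat_gt (max ((κ : ℝ) * m) (2 + 2 * m / c))
  have hk1 : (κ : ℝ) * m < k := lt_of_le_of_lt (le_max_left _ _) hk
  have hk2 : 2 + 2 * m / c < (k : ℝ) := lt_of_le_of_lt (le_max_right _ _) hk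
  have hk3 : (2 : ℝ) < k := by
    have : (0 : ℝ) ≤ 2 * m / c := by positivity
    linarith
  have hk3' : 2 ≤ k := by
    have : (2 : ℝ) < (k : ℝ) := hk3
    exact_mod_cast this.le
  have hk0 : (0 : ℝ) < k := by linarith
  set s1 : ℝ := k / κ - m with hs1d
  set s3 : ℝ := (k - 2) * (c / 2) - m with hs3d
  have hs1 : 0 < s1 := by
    have : (m : ℝ) < k / κ := by
      rw [lt_div_iff₀ hκ0]
      linarith [mul_comm (κ : ℝ) m]
    linarith
  have hs3 : 0 < s3 := by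
    have h1 : 2 * m / c < (k : ℝ) - 2 := by linarith
    rw [div_lt_iff₀ hc] at h1
    have : (m : ℝ) < (k - 2) * (c / 2) := by nlinarith
    linarith
  set b : ℝ := Real.log 2 / 4 with hb
  have hb0 : 0 < b := by
    have := Real.log_pos (by norm_num : (1 : ℝ) < 2)
    positivity
  set K : ℝ := 2 ^ (m + 1) * 2 ^ (1 / 4 : ℝ) with hK
  set s : ℝ := min s1 s3 / 2 with hs
  have hs0 : 0 < s := by
    have := lt_min hs1 hs3
    positivity
  have hss1 : 0 < s1 - s := by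
    have h1 := min_le_left s1 s3
    rw [hs]
    linarith
  have hss3 : 0 < s3 - s := by
    have h1 := min_le_right s1 s3
    rw [hs]
    linarith
  refine ⟨s / k, by positivity, fun A B C E hA hB hC hE δ hδ => ?_⟩
  have t1 : Tendsto (fun x : ℝ => x ^ (-(s1 - s))) atTop (𝓝 0) := tendsto_rpow_neg_atTop hss1
  have t3 : Tendsto (fun x : ℝ => x ^ (-(s3 - s))) atTop (𝓝 0) := tendsto_rpow_neg_atTop hss3
  have t2 : Tendsto (fun x : ℝ => x ^ (((k * (m + 1) : ℕ) : ℝ) + s) * Real.exp (-b * x)) atTop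
      (𝓝 0) := tendsto_rpow_mul_exp_neg_mul_atTop_nhds_zero _ _ hb0
  have tt : Tendsto (fun x : ℝ => A * x ^ (-(s1 - s)) + B * (K * (x ^ (((k * (m + 1) : ℕ) : ℝ) + s) *
      Real.exp (-b * x))) + C * (E ^ (c / 2) * x ^ (-(s3 - s)))) atTop (𝓝 0) := by
    have := ((t1.const_mul A).add ((t2.const_mul K).const_mul B)).add
      ((t3.const_mul (E ^ (c / 2))).const_mul C)
    simpa using this
  have ev := tt.eventually_le_const hδ
  have ev2 := ev.and (eventually_ge_atTop ((2 : ℝ) * m + 1))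
  have hN : Tendsto (fun N : ℕ => (N : ℝ) ^ (1 / (k : ℝ))) atTop atTop :=
    (tendsto_rpow_atTop (by positivity)).comp tendsto_natCast_atTop_atTop
  have ev3 := hN.eventually ev2
  obtain ⟨N₀, hN₀⟩ := eventually_atTop.mp ev3
  refine ⟨N₀, fun N hNN => ?_⟩
  obtain ⟨hF, hx⟩ := hN₀ N hNN
  set x : ℝ := (N : ℝ) ^ (1 / (k : ℝ)) with hxd
  have hx1 : 1 ≤ x := by
    have : (0 : ℝ) ≤ 2 * m := by positivity
    linarith
  have hx0 : 0 < x := by linarith
  have hxk : x ^ k = (N : ℝ) := by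
    rw [hxd, ← Real.rpow_natCast, ← Real.rpow_mul (Nat.cast_nonneg N), one_div,
      inv_mul_cancel₀ hk0.ne', Real.rpow_one]
  have hxk' : x ^ (k : ℝ) = (N : ℝ) := by rw [Real.rpow_natCast, hxk]
  have hN1 : (1 : ℝ) ≤ N := by
    rw [← hxk]
    exact one_le_pow₀ hx1
  have hT : ((⌊x⌋₊ : ℕ) : ℝ) ≤ x := Nat.floor_le hx0.le
  have hT' : x < ((⌊x⌋₊ : ℕ) : ℝ) + 1 := Nat.lt_floor_add_one x
  refine ⟨by exact_mod_cast hN1, ⌊x⌋₊, ?_, ?_, ?_⟩
  · exact Nat.le_floor (by exact_mod_cast hx1)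
  · have : (2 : ℝ) * m * ((⌊x⌋₊ : ℕ) : ℝ) ≤ N := by
      calc (2 : ℝ) * m * ((⌊x⌋₊ : ℕ) : ℝ) ≤ 2 * m * x := by
            apply mul_le_mul_of_nonneg_left hT (by positivity)
        _ ≤ x * x := by
            apply mul_le_mul_of_nonneg_right (by linarith) hx0.le
        _ = x ^ 2 := by ring
        _ ≤ x ^ k := pow_le_pow_right₀ hx1 hk3'
        _ = N := hxk
    exact_mod_cast this
  · set T : ℕ := ⌊x⌋₊ with hTd
    have hTm : (T : ℝ) ^ m ≤ x ^ (m : ℝ) := by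
      rw [Real.rpow_natCast]
      exact pow_le_pow_left₀ (Nat.cast_nonneg T) hT m
    -- first term
    have b1 : (T : ℝ) ^ m * (N : ℝ) ^ (-(1 / (κ : ℝ))) ≤ x ^ (-s1) := by
      have e1 : (N : ℝ) ^ (-(1 / (κ : ℝ))) = x ^ ((k : ℝ) * (-(1 / (κ : ℝ)))) := by
        rw [Real.rpow_mul hx0.le, hxk']
      rw [e1]
      calc (T : ℝ) ^ m * x ^ ((k : ℝ) * (-(1 / (κ : ℝ))))
          ≤ x ^ (m : ℝ) * x ^ ((k : ℝ) * (-(1 / (κ : ℝ)))) :=
            mul_le_mul_of_nonneg_right hTm (Real.rpow_nonneg hx0.le _)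
        _ = x ^ (-s1) := by
            rw [← Real.rpow_add hx0]
            congr 1
            rw [hs1d]
            ring
    -- second term
    have b2 : ((N : ℝ) + 1) ^ m * (((N : ℝ) + 1) * (q⁻¹) ^ T) ^ (1 / 4 : ℝ) ≤
        K * (x ^ ((k * (m + 1) : ℕ) : ℝ) * Real.exp (-b * x)) := by
      have hn2 : (N : ℝ) + 1 ≤ 2 * x ^ k := by rw [hxk]; linarith
      have hxk1 : 1 ≤ x ^ k := one_le_pow₀ hx1
      have i1 : (((N : ℝ) + 1) * (q⁻¹) ^ T) ^ (1 / 4 : ℝ) ≤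
          (2 * x ^ k) * (2 ^ (1 / 4 : ℝ) * Real.exp (-b * x)) := by
        rw [Real.mul_rpow (by positivity) (by positivity)]
        have j1 : ((N : ℝ) + 1) ^ (1 / 4 : ℝ) ≤ 2 * x ^ k := by
          calc ((N : ℝ) + 1) ^ (1 / 4 : ℝ) ≤ ((N : ℝ) + 1) ^ (1 : ℝ) :=
                Real.rpow_le_rpow_of_exponent_le (by linarith) (by norm_num)
            _ = (N : ℝ) + 1 := Real.rpow_one _
            _ ≤ 2 * x ^ k := hn2
        have j2 : ((q⁻¹) ^ T) ^ (1 / 4 : ℝ) ≤ 2 ^ (1 / 4 : ℝ) * Real.exp (-b * x) := by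
          have l1 : (q⁻¹) ^ T ≤ (2⁻¹ : ℝ) ^ T :=
            pow_le_pow_left₀ (by positivity) (inv_anti₀ (by norm_num) hq) T
          have l2 : ((2⁻¹ : ℝ) ^ T) ≤ 2 * Real.exp (-(Real.log 2) * x) := by
            have l3 : ((2⁻¹ : ℝ) ^ T) = Real.exp (-(Real.log 2) * T) := by
              rw [neg_mul, Real.exp_neg, mul_comm, Real.exp_nat_mul, Real.exp_log (by norm_num),
                inv_pow]
            rw [l3]
            have l4 : (2 : ℝ) = Real.exp (Real.log 2) := (Real.exp_log (by norm_num)).symm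
            calc Real.exp (-(Real.log 2) * T) ≤ Real.exp (Real.log 2 + -(Real.log 2) * x) := by
                  apply Real.exp_le_exp.mpr
                  have := Real.log_pos (by norm_num : (1 : ℝ) < 2)
                  nlinarith
              _ = 2 * Real.exp (-(Real.log 2) * x) := by
                  rw [Real.exp_add, Real.exp_log (by norm_num)]
          calc ((q⁻¹) ^ T) ^ (1 / 4 : ℝ) ≤ (2 * Real.exp (-(Real.log 2) * x)) ^ (1 / 4 : ℝ) :=
                Real.rpow_le_rpow (by positivity) (l1.trans l2) (by norm_num)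
            _ = 2 ^ (1 / 4 : ℝ) * Real.exp (-b * x) := by
                rw [Real.mul_rpow (by norm_num) (Real.exp_pos _).le, ← Real.exp_mul]
                congr 2
                rw [hb]
                ring
        exact mul_le_mul j1 j2 (Real.rpow_nonneg (by positivity) _) (by positivity)
      have i2 : ((N : ℝ) + 1) ^ m ≤ (2 * x ^ k) ^ m :=
        pow_le_pow_left₀ (by positivity) hn2 m
      calc ((N : ℝ) + 1) ^ m * (((N : ℝ) + 1) * (q⁻¹) ^ T) ^ (1 / 4 : ℝ)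
          ≤ (2 * x ^ k) ^ m * ((2 * x ^ k) * (2 ^ (1 / 4 : ℝ) * Real.exp (-b * x))) :=
            mul_le_mul i2 i1 (Real.rpow_nonneg (by positivity) _) (by positivity)
        _ = K * (x ^ ((k * (m + 1) : ℕ) : ℝ) * Real.exp (-b * x)) := by
            rw [Real.rpow_natCast, hK, pow_mul, mul_pow]
            ring
    -- third term
    have b3 : (T : ℝ) ^ m * (E * (T : ℝ) ^ 2 / N) ^ (c / 2) ≤ E ^ (c / 2) * x ^ (-s3) := by
      have j1 : E * (T : ℝ) ^ 2 / N ≤ E * x ^ ((2 : ℝ) - k) := by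
        have e1 : x ^ ((2 : ℝ) - k) = x ^ 2 / N := by
          rw [Real.rpow_sub hx0, hxk']
          norm_num
        rw [e1, mul_div_assoc]
        apply mul_le_mul_of_nonneg_left _ hE
        apply div_le_div_of_nonneg_right _ (by linarith)
        exact pow_le_pow_left₀ (Nat.cast_nonneg T) hT 2
      have j2 : (E * (T : ℝ) ^ 2 / N) ^ (c / 2) ≤ E ^ (c / 2) * x ^ (((2 : ℝ) - k) * (c / 2)) := by
        calc (E * (T : ℝ) ^ 2 / N) ^ (c / 2) ≤ (E * x ^ ((2 : ℝ) - k)) ^ (c / 2) :=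
              Real.rpow_le_rpow (by positivity) j1 (by positivity)
          _ = E ^ (c / 2) * x ^ (((2 : ℝ) - k) * (c / 2)) := by
              rw [Real.mul_rpow hE (Real.rpow_nonneg hx0.le _), ← Real.rpow_mul hx0.le]
      calc (T : ℝ) ^ m * (E * (T : ℝ) ^ 2 / N) ^ (c / 2)
          ≤ x ^ (m : ℝ) * (E ^ (c / 2) * x ^ (((2 : ℝ) - k) * (c / 2))) :=
            mul_le_mul hTm j2 (Real.rpow_nonneg (by positivity) _) (Real.rpow_nonneg hx0.le _)
        _ = E ^ (c / 2) * (x ^ (m : ℝ) * x ^ (((2 : ℝ) - k) * (c / 2))) := by ring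
        _ = E ^ (c / 2) * x ^ (-s3) := by
            rw [← Real.rpow_add hx0]
            congr 2
            rw [hs3d]
            ring
    have g1 := mul_le_mul_of_nonneg_left b1 hA
    have g2 := mul_le_mul_of_nonneg_left b2 hB
    have g3 := mul_le_mul_of_nonneg_left b3 hC
    have hxs : x ^ (-s) = (N : ℝ) ^ (-(s / k)) := by
      rw [← hxk', ← Real.rpow_mul hx0.le]
      congr 1
      field_simp
    have hF2 := mul_le_mul_of_nonneg_right hF (Real.rpow_nonneg hx0.le (-s))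
    have r1 : x ^ (-(s1 - s)) * x ^ (-s) = x ^ (-s1) := by
      rw [← Real.rpow_add hx0]
      congr 1
      ring
    have r3 : x ^ (-(s3 - s)) * x ^ (-s) = x ^ (-s3) := by
      rw [← Real.rpow_add hx0]
      congr 1
      ring
    have r2 : x ^ (((k * (m + 1) : ℕ) : ℝ) + s) * x ^ (-s) = x ^ ((k * (m + 1) : ℕ) : ℝ) := by
      rw [← Real.rpow_add hx0]
      congr 1
      ring
    have hF3 : (A * x ^ (-(s1 - s)) + B * (K * (x ^ (((k * (m + 1) : ℕ) : ℝ) + s) *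
        Real.exp (-b * x))) + C * (E ^ (c / 2) * x ^ (-(s3 - s)))) * x ^ (-s) =
        A * x ^ (-s1) + B * (K * (x ^ ((k * (m + 1) : ℕ) : ℝ) * Real.exp (-b * x))) +
          C * (E ^ (c / 2) * x ^ (-s3)) := by
      rw [← r1, ← r2, ← r3]
      ring
    rw [hF3, hxs] at hF2
    linarith

end Pool.Agent.Helper62.SR
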