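import Pool.Agent.Helper62.SR.Avg
import Pool.Agent.Helper48.ST.KOr

/-!
The proportion of twists with only torsion classes, with a rate (adapted from
Helper48/ST/Prop1.lean).
-/

set_option autoImplicit false

open Polynomial
open scoped Classical
open Pool.Agent.Helper48.ST

namespace Pool.Agent.Helper62.SR

theorem prop1 {F : Type} [Field F] [Fintype F] {ℓ : ℕ} [Fact ℓ.Prime] (g : Lg F ℓ)
    (h2 : ℓ ≠ 2) {n d : ℕ} (hn1 : 2 ≤ n) (hn : ¬ ℓ ∣ n) (hd : 1 ≤ d) {a : Fin n → F[X]}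
    (ha : Stp d a) (δ : ℝ) (hδ : 0 ≤ δ) (N : ℕ) (hdvd : ℓ ∣ N + n * d)
    (hS : ∑ t ∈ Sq (SS a) N, ((clsS g a t).ncard : ℝ) ≤
        (2 + δ) * (ℓ : ℝ) ^ (n - 1) * ((Sq (SS a) N).card : ℝ)) :
      (((ℓ : ℝ) - 2) / ((ℓ : ℝ) - 1) - δ) * ((Sq (SS a) N).card : ℝ) ≤
        (((Sq (SS a) N).filter fun t => ∀ x : Fin n → (RatFunc F)ˣ, InS g a t x →
          ∃ w : Fin n → ℤ, ∑ i, w i = 0 ∧ ∃ b : Fin n → (RatFunc F)ˣ,
            ∀ j, (x j : RatFunc F) = Tor a (pr t) w j * (b j : RatFunc F) ^ ℓ).card : ℝ) := by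
  set p : Finset (Ir F) → Prop := fun t => ∀ x : Fin n → (RatFunc F)ˣ, InS g a t x →
          ∃ w : Fin n → ℤ, ∑ i, w i = 0 ∧ ∃ b : Fin n → (RatFunc F)ˣ,
            ∀ j, (x j : RatFunc F) = Tor a (pr t) w j * (b j : RatFunc F) ^ ℓ with hp
  have hl3 : 3 ≤ ℓ := by
    have := (Fact.out : ℓ.Prime).two_le
    omega
  have hl3' : (3 : ℝ) ≤ (ℓ : ℝ) := by exact_mod_cast hl3
  set κ : ℝ := (ℓ : ℝ) ^ (n - 1) with hκ
  have hκ0 : 0 < κ := by positivity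
  have hor : ∀ t ∈ Sq (SS a) N, ((clsS g a t).ncard = ℓ ^ (n - 1) ∧ p t) ∨
      ℓ * ℓ ^ (n - 1) ≤ (clsS g a t).ncard := by
    intro t ht
    rw [mem_Sq] at ht
    have := k_or g h2 hn1 hn hd ha ht.1 (by rw [ht.2]; exact hdvd)
    exact this
  have h1 : ∀ t ∈ (Sq (SS a) N).filter p, κ ≤ ((clsS g a t).ncard : ℝ) := by
    intro t ht
    rw [Finset.mem_filter] at ht
    rcases hor t ht.1 with h | h
    · rw [h.1, Nat.cast_pow]
    · have h' : ((ℓ * ℓ ^ (n - 1) : ℕ) : ℝ) ≤ ((clsS g a t).ncard : ℝ) := by exact_mod_cast h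
      rw [Nat.cast_mul, Nat.cast_pow] at h'
      nlinarith
  have h2' : ∀ t ∈ (Sq (SS a) N).filter (fun t => ¬ p t),
      (ℓ : ℝ) * κ ≤ ((clsS g a t).ncard : ℝ) := by
    intro t ht
    rw [Finset.mem_filter] at ht
    rcases hor t ht.1 with h | h
    · exact absurd h.2 ht.2
    · have h' : ((ℓ * ℓ ^ (n - 1) : ℕ) : ℝ) ≤ ((clsS g a t).ncard : ℝ) := by exact_mod_cast h
      rw [Nat.cast_mul, Nat.cast_pow] at h'
      exact h'
  have hsum : ∑ t ∈ Sq (SS a) N, ((clsS g a t).ncard : ℝ) =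
      ∑ t ∈ (Sq (SS a) N).filter p, ((clsS g a t).ncard : ℝ) +
        ∑ t ∈ (Sq (SS a) N).filter (fun t => ¬ p t), ((clsS g a t).ncard : ℝ) :=
    (Finset.sum_filter_add_sum_filter_not _ _ _).symm
  have hcard : ((Sq (SS a) N).card : ℝ) = (((Sq (SS a) N).filter p).card : ℝ) +
      (((Sq (SS a) N).filter (fun t => ¬ p t)).card : ℝ) := by
    rw [← Nat.cast_add, Finset.card_filter_add_card_filter_not]
  have e1 := Finset.card_nsmul_le_sum _ _ _ h1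
  have e2 := Finset.card_nsmul_le_sum _ _ _ h2'
  rw [nsmul_eq_mul] at e1 e2
  rw [hsum] at hS
  set A : ℝ := (((Sq (SS a) N).filter p).card : ℝ) with hA
  set B : ℝ := (((Sq (SS a) N).filter (fun t => ¬ p t)).card : ℝ) with hB
  set M : ℝ := ((Sq (SS a) N).card : ℝ) with hM
  have hB0 : 0 ≤ B := Nat.cast_nonneg _
  have hM0 : 0 ≤ M := Nat.cast_nonneg _
  have e3 : κ * (A + ℓ * B) ≤ κ * ((2 + δ) * M) := by
    calc κ * (A + ℓ * B) = A * κ + B * (ℓ * κ) := by ring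
      _ ≤ _ := add_le_add e1 e2
      _ ≤ (2 + δ) * κ * M := hS
      _ = κ * ((2 + δ) * M) := by ring
  have e4 : A + ℓ * B ≤ (2 + δ) * M := le_of_mul_le_mul_left e3 hκ0
  have e5 : ((ℓ : ℝ) - 1) * B ≤ (1 + δ) * M := by
    have : A = M - B := by rw [hcard]; ring
    rw [this] at e4
    linarith
  have hl1 : (0 : ℝ) < (ℓ : ℝ) - 1 := by linarith
  have e6 : (((ℓ : ℝ) - 2) / ((ℓ : ℝ) - 1) - δ) * M * ((ℓ : ℝ) - 1) ≤ A * ((ℓ : ℝ) - 1) := by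
    have : (((ℓ : ℝ) - 2) / ((ℓ : ℝ) - 1) - δ) * M * ((ℓ : ℝ) - 1) =
        ((ℓ : ℝ) - 2) * M - δ * ((ℓ : ℝ) - 1) * M := by
      field_simp
    rw [this]
    have hA' : A = M - B := by rw [hcard]; ring
    rw [hA']
    have h8 : δ * M ≤ δ * ((ℓ : ℝ) - 1) * M := by
      have : δ * M * 1 ≤ δ * M * ((ℓ : ℝ) - 1) :=
        mul_le_mul_of_nonneg_left (by linarith) (mul_nonneg hδ hM0)
      linarith
    nlinarith
  exact le_of_mul_le_mul_right e6 hl1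

end Pool.Agent.Helper62.SR
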