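import Pool.Agent.Helper48.ST.Final
import Pool.Agent.Helper62.SR.Prop1

/-!
The final theorem, with a rate (adapted from Helper48/ST/Final.lean).
-/

set_option autoImplicit false

open Polynomial
open scoped Classical
open Pool.Agent.Helper48.ST

namespace Pool.Agent.Helper62.SR

theorem final {F : Type} [Field F] [Fintype F] {ℓ : ℕ} [Fact ℓ.Prime]
    (h2 : ℓ ≠ 2) (hq : ℓ ∣ Fintype.card F - 1) {n d u : ℕ} (hn1 : 2 ≤ n) (hn : ¬ ℓ ∣ n)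
    (hd : 1 ≤ d) (hu : n * u ≡ 1 [MOD ℓ]) (a : Fin n → F[X]) (ha : Stp d a) :
    ∃ c θ : ℝ, 0 < c ∧ 0 < θ ∧ ∃ N₀ : ℕ, ∀ N : ℕ, N₀ ≤ N → ℓ ∣ N + n * d →
      (Tw a N).Finite ∧ c * (Fintype.card F : ℝ) ^ N ≤ ((Tw a N).ncard : ℝ) ∧
      (∀ D ∈ Tw a N, ℓ ^ (n - 1) ≤ selOrd ℓ u a D) ∧
      ∑ᶠ D ∈ Tw a N, (selOrd ℓ u a D : ℝ) ≤
        (2 + (N : ℝ) ^ (-θ)) * (ℓ : ℝ) ^ (n - 1) * ((Tw a N).ncard : ℝ) ∧
      (((ℓ : ℝ) - 2) / ((ℓ : ℝ) - 1) - (N : ℝ) ^ (-θ)) * ((Tw a N).ncard : ℝ) ≤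
        ({D : F[X] | D ∈ Tw a N ∧ selOrd ℓ u a D = ℓ ^ (n - 1) ∧
          ∀ x ∈ Sel F ℓ u (fun i => algebraMap F[X] (RatFunc F) (a i))
            (algebraMap F[X] (RatFunc F) D),
            ∃ w : Fin n → ℤ, ∑ i, w i = 0 ∧ ∃ b : Fin n → (RatFunc F)ˣ,
              ∀ j, (x j : RatFunc F) = Tor a D w j * (b j : RatFunc F) ^ ℓ}.ncard : ℝ) := by
  obtain ⟨g⟩ := exists_lg F ℓ hq
  obtain ⟨c, hc, N₁, hN₁⟩ := sq_lower (SS a)
  obtain ⟨θ, hθ, havg⟩ := avg g h2 hn1 hn hd ha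
  obtain ⟨N₂, hN₂⟩ := havg 1 one_pos
  refine ⟨c, θ, hc, hθ, max N₁ N₂, fun N hN hdvd => ?_⟩
  have hav := hN₂ N ((le_max_right _ _).trans hN)
  rw [one_mul] at hav
  have hpr := prop1 g h2 hn1 hn hd ha ((N : ℝ) ^ (-θ)) (by positivity) N hdvd hav
  have hT := final_Tw ha N
  have hfin : (Tw a N).Finite := by
    rw [hT]
    exact (Finset.finite_toSet _).image _
  have hcard : (Tw a N).ncard = (Sq (SS a) N).card := by
    rw [hT, Set.ncard_image_of_injective _ pr_injective, Set.ncard_coe_finset]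
  have hmem : ∀ t ∈ Sq (SS a) N, Disjoint t (SS a) ∧ ℓ ∣ dgs t + n * d := by
    intro t ht
    rw [mem_Sq] at ht
    exact ⟨ht.1, by rw [ht.2]; exact hdvd⟩
  refine ⟨hfin, ?_, ?_, ?_, ?_⟩
  · rw [hcard]
    exact hN₁ N ((le_max_left _ _).trans hN)
  · intro D hD
    rw [hT] at hD
    obtain ⟨t, ht, rfl⟩ := hD
    obtain ⟨h3, h4⟩ := hmem t (Finset.mem_coe.1 ht)
    exact le_relIx g h2 hq hn1 hn hd hu ha h3 h4
  · have hsum : ∑ᶠ D ∈ Tw a N, (selOrd ℓ u a D : ℝ) =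
        ∑ t ∈ Sq (SS a) N, (selOrd ℓ u a (pr t) : ℝ) := by
      rw [hT, finsum_mem_image pr_injective.injOn, finsum_mem_coe_finset]
    rw [hsum, hcard]
    refine le_trans (Finset.sum_le_sum fun t ht => ?_) hav
    obtain ⟨h3, h4⟩ := hmem t ht
    exact_mod_cast relIx_le g h2 hq hn1 hn hd hu ha h3 h4
  · rw [hcard]
    refine hpr.trans ?_
    rw [← Set.ncard_coe_finset, ← Set.ncard_image_of_injective _ pr_injective]
    refine Nat.cast_le.2 (Set.ncard_le_ncard ?_ (hfin.subset fun D hD => hD.1))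
    rintro D ⟨t, ht, rfl⟩
    rw [Finset.mem_coe, Finset.mem_filter] at ht
    obtain ⟨h3, h4⟩ := hmem t ht.1
    refine ⟨?_, relIx_eq g h2 hq hn1 hn hd hu ha h3 h4 ht.2, fun x hx => ?_⟩
    · rw [hT]
      exact ⟨t, Finset.mem_coe.2 ht.1, rfl⟩
    · exact ht.2 x (sel_in g h2 hq (by omega) hu ha h3 h4 x hx)

end Pool.Agent.Helper62.SR
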